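import Pool.Agent.EXC.FIN
import Pool.Agent.CNP.CNB

/-!
# The block models of the adsorbed walk have continuously differentiable free energies (MP_ec8652_mp)

The lattice is `ℤ^(d+1)`, `d ≥ 1` (the problem has `d = 2`); walks are lists of steps, the coordinate `0` is the height, the
wall is the set of the points of height `0`.
`Loop w`: `w` is self-avoiding, stays in the closed upper half space, starts and ends on the wall; `ret w`: the number of
visits of `w` to the wall after the start; `Blk k w`: a loop with `ret w = k`; `BW k w`: `w` is a concatenation of walks with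
`Blk k`, so the steps inside one block of `k` consecutive excursions avoid each other, different blocks do not see each other.
`Zr A α n`: the sum of `exp (α * ret w)` over the walks `w ∈ A` with `n` steps.  `c` is the connective constant.
-/

set_option autoImplicit false

open scoped BigOperators Topology
open Filter CNP EXC

theorem Pool.Agent.Results.MP_ec8652_mp.BlockModels.result (d : ℕ) (hd : 1 ≤ d) (c : ℝ)
    (hc : Tendsto (fun n : ℕ => (cs d n : ℝ) ^ (1 / (n : ℝ))) atTop (𝓝 c)) : ∃ φ : ℕ → ℝ → ℝ,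
    (∀ k : ℕ, 1 ≤ k → ∀ α : ℝ,
      Tendsto (fun n : ℕ => Real.log (Zr {w : Wlk d | BW k w} α n) / (n : ℝ)) atTop (𝓝 (φ k α))) ∧
    (∀ k : ℕ, 1 ≤ k → ContDiff ℝ 1 (φ k)) ∧
    (∀ k : ℕ, 1 ≤ k → ∀ α : ℝ, Real.log c ≤ φ k α) ∧
    (∀ k : ℕ, 1 ≤ k → ∀ α : ℝ, φ k α = Real.log c → deriv (φ k) α = 0) ∧
    (∀ k m : ℕ, 1 ≤ k → 1 ≤ m → ∀ α : ℝ, φ (k * m) α ≤ φ k α) ∧
    ∀ α : ℝ, limsup (fun n : ℕ => Real.log (Zr {w : Wlk d | Loop w} α n) / (n : ℝ)) atTop =
      ⨅ k : ℕ, φ (k + 1) α := by
  have hcm : c = mu d := tendsto_nhds_unique hc (cs_tendsto d)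
  subst hcm
  exact blocks d hd
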