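import Pool.Agent.EXC.BLX
import Pool.Agent.EXC.THA
import Pool.Agent.CNP.CNB

/-!
# Critical half-space self-avoiding loops with `k` returns have infinite mean length (MP_ec8652_mp)

The lattice is `ℤ^(d+1)`, `d ≥ 1` (the problem has `d = 2`); walks are lists of steps, the coordinate `0` is the height.
`Blk k l`: `l` is self-avoiding, stays in the closed upper half space, starts and ends on the wall (height `0`) and visits the
wall exactly `k` times after its start (`k = 1`: excursions).  `c` is the connective constant.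
The theorem: for every `k ≥ 1` the series of `n * (number of such walks with n steps) / c ^ n` diverges.
-/

set_option autoImplicit false

open scoped ENNReal BigOperators Topology
open Filter CNP EXC

theorem Pool.Agent.Results.MP_ec8652_mp.LoopMean.result (d : ℕ) (hd : 1 ≤ d) (c : ℝ)
    (hc : Tendsto (fun n : ℕ => (cs d n : ℝ) ^ (1 / (n : ℝ))) atTop (𝓝 c)) (k : ℕ) (hk : 1 ≤ k) :
    ¬ Summable (fun n : ℕ => (n : ℝ) * (Set.ncard {l : Wlk d | Blk k l ∧ l.length = n} : ℝ) / c ^ n) := by
  have hcm : c = mu d := tendsto_nhds_unique hc (cs_tendsto d)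
  subst hcm
  intro hs
  have h1 := Blk_mean (d := d) hd (exc_mean d hd) k hk
  have h2 : ∀ l : Wlk d, {l : Wlk d | Blk k l}.indicator (fun l => (l.length : ℝ≥0∞) * zc d ^ l.length) l =
      ∑' n : ℕ, {l : Wlk d | Blk k l ∧ l.length = n}.indicator (fun l => (l.length : ℝ≥0∞) * zc d ^ l.length) l := by
    intro l
    by_cases hl : Blk k l
    · rw [Set.indicator_of_mem (show l ∈ {l : Wlk d | Blk k l} from hl), tsum_eq_single l.length,
        Set.indicator_of_mem (show l ∈ {l' : Wlk d | Blk k l' ∧ l'.length = l.length} from ⟨hl, rfl⟩)]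
      intro n hn
      exact Set.indicator_of_notMem (fun h => hn h.2.symm) _
    · rw [Set.indicator_of_notMem (show l ∉ {l : Wlk d | Blk k l} from hl)]
      symm
      rw [ENNReal.tsum_eq_zero]
      intro n
      exact Set.indicator_of_notMem (fun h => hl h.1) _
  rw [tsum_congr h2, ENNReal.tsum_comm] at h1
  have h3 : ∀ n : ℕ, ∑' l : Wlk d, {l : Wlk d | Blk k l ∧ l.length = n}.indicator
      (fun l => (l.length : ℝ≥0∞) * zc d ^ l.length) l =
      ENNReal.ofReal ((n : ℝ) * (Set.ncard {l : Wlk d | Blk k l ∧ l.length = n} : ℝ) / mu d ^ n) := by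
    intro n
    rw [← tsum_subtype]
    have h4 : ∀ l : {l : Wlk d | Blk k l ∧ l.length = n}, (l.1.length : ℝ≥0∞) * zc d ^ l.1.length =
        (n : ℝ≥0∞) * zc d ^ n := fun l => by rw [l.2.2]
    rw [tsum_congr h4]
    have hfin : {l : Wlk d | Blk k l ∧ l.length = n}.Finite := (len_fin d n).subset (fun l hl => hl.2)
    have : Fintype {l : Wlk d | Blk k l ∧ l.length = n} := hfin.fintype
    rw [tsum_fintype, Finset.sum_const, nsmul_eq_mul, Finset.card_univ, Set.ncard_eq_toFinset_card', Set.toFinset_card]
    unfold zc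
    rw [div_eq_mul_inv, ENNReal.ofReal_mul (by positivity), ENNReal.ofReal_mul (Nat.cast_nonneg _),
      ENNReal.ofReal_natCast, ENNReal.ofReal_natCast, ← inv_pow, ENNReal.ofReal_pow (inv_nonneg.mpr (mu_pos d).le)]
    ring
  rw [tsum_congr h3] at h1
  have hnn : ∀ n : ℕ, 0 ≤ (n : ℝ) * (Set.ncard {l : Wlk d | Blk k l ∧ l.length = n} : ℝ) / mu d ^ n := by
    intro n
    have := mu_pos d
    positivity
  rw [← ENNReal.ofReal_tsum_of_nonneg hnn hs] at h1
  exact ENNReal.ofReal_ne_top h1
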